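import Pool.Agent.Helper38.UN.St

/-!
# Project UN (MP_d629b1_an), module CHT: tubes are charts
-/

set_option autoImplicit false

open Set Filter Topology Matrix
open scoped ContDiff ComplexConjugate

noncomputable section

namespace Pool.Agent.Helper36.UN38

open Pool.Agent.Helper71.UN Pool.Agent.Helper38.UN

/-- the wall matrix -/
def WW (p q : ℤ) (e θ : ℝ) (l : ℤ) : Matrix (Fin 2) (Fin 2) ℝ :=
  Matrix.of fun i i' => wm p q e θ l (bo i) (bo i')

theorem bo_zero : bo 0 = false := rfl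

theorem bo_one : bo 1 = true := rfl

theorem WW_eq_q (p q : ℤ) (e θ : ℝ) :
    WW p q e θ q = !![Real.cos θ ^ 2, e * (Real.cos θ * Real.sin θ);
      e * (Real.cos θ * Real.sin θ), Real.sin θ ^ 2] := by
  ext i i'
  fin_cases i <;> fin_cases i' <;> simp [WW, wm, bo]

theorem WW_eq_p {p q : ℤ} (hpq : p ≠ q) (e θ : ℝ) :
    WW p q e θ p = !![Real.sin θ ^ 2, -(e * (Real.cos θ * Real.sin θ));
      -(e * (Real.cos θ * Real.sin θ)), Real.cos θ ^ 2] := by
  ext i i'
  fin_cases i <;> fin_cases i' <;> simp [WW, wm, bo, hpq]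

theorem WW_zero {p q l : ℤ} (hp : l ≠ p) (hq : l ≠ q) (e θ : ℝ) : WW p q e θ l = 0 := by
  ext i i'
  simp [WW, wm, hp, hq]

theorem WW_symm (p q : ℤ) (hpq : p ≠ q) (e θ : ℝ) (l : ℤ) : (WW p q e θ l)ᵀ = WW p q e θ l := by
  by_cases hq : l = q
  · subst hq
    rw [WW_eq_q]
    ext i i'
    fin_cases i <;> fin_cases i' <;> simp
  · by_cases hp : l = p
    · subst hp
      rw [WW_eq_p hpq]
      ext i i'
      fin_cases i <;> fin_cases i' <;> simp
    · rw [WW_zero hp hq, Matrix.transpose_zero]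

theorem WW_idem (p q : ℤ) (hpq : p ≠ q) (e θ : ℝ) (he : e * e = 1) (l : ℤ) :
    WW p q e θ l * WW p q e θ l = WW p q e θ l := by
  have hcs := Real.sin_sq_add_cos_sq θ
  by_cases hq : l = q
  · subst hq
    rw [WW_eq_q]
    ext i i'
    fin_cases i <;> fin_cases i' <;>
      simp only [Matrix.mul_apply, Fin.sum_univ_two] <;> simp
    · linear_combination (Real.cos θ ^ 2) * hcs
        + (Real.cos θ ^ 2 * Real.sin θ ^ 2) * he
    · linear_combination (e * (Real.cos θ * Real.sin θ)) * hcs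
    · linear_combination (e * (Real.cos θ * Real.sin θ)) * hcs
    · linear_combination (Real.sin θ ^ 2) * hcs
        + (Real.cos θ ^ 2 * Real.sin θ ^ 2) * he
  · by_cases hp : l = p
    · subst hp
      rw [WW_eq_p hpq]
      ext i i'
      fin_cases i <;> fin_cases i' <;>
        simp only [Matrix.mul_apply, Fin.sum_univ_two] <;> simp
      · linear_combination (Real.sin θ ^ 2) * hcs
          + (Real.cos θ ^ 2 * Real.sin θ ^ 2) * he
      · linear_combination (-(e * (Real.cos θ * Real.sin θ))) * hcs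
      · linear_combination (-(e * (Real.cos θ * Real.sin θ))) * hcs
      · linear_combination (Real.cos θ ^ 2) * hcs
          + (Real.cos θ ^ 2 * Real.sin θ ^ 2) * he
    · rw [WW_zero hp hq, Matrix.mul_zero]

theorem WW_sum {p q : ℤ} (hpq : p ≠ q) (e θ : ℝ) (S : Finset ℤ) (hp : p ∈ S) (hq : q ∈ S) :
    ∑ l ∈ S, WW p q e θ l = 1 := by
  have hcs := Real.sin_sq_add_cos_sq θ
  rw [Finset.sum_eq_add p q hpq (fun c _ hc => WW_zero hc.1 hc.2 e θ) (fun h => absurd hp h)
    (fun h => absurd hq h), WW_eq_p hpq, WW_eq_q]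
  ext i i'
  fin_cases i <;> fin_cases i' <;> simp [Real.sin_sq_add_cos_sq, Real.cos_sq_add_sin_sq]

theorem hh_I_mul (d : ℂ) : hh d (Complex.I * d) = ‖d‖ := by
  unfold hh
  rw [mul_assoc, Complex.mul_conj, Complex.I_mul_im, Complex.ofReal_re,
    Complex.normSq_eq_norm_sq, sq, mul_self_div_self]

variable {κ J : Type} {n : ℕ}

theorem lab_mem {N : Nw κ J n} {S : Finset ℤ} {r₁ r₂ : ℝ} (hN : NwOK N S r₁ r₂) (j : J) :
    N.lp j ∈ S ∧ N.lq j ∈ S := by
  have h := hN.wall j false (1 / 2) (by norm_num) (by norm_num)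
  have hd : 0 < ‖N.d j‖ := norm_pos_iff.2 (hN.d_ne j)
  have hc : Tendsto (fun s : ℝ => N.sp j false + ((1 / 2 : ℝ) : ℂ) * N.d j
      + (s : ℂ) * (Complex.I * N.d j)) (𝓝 0)
      (𝓝 (N.sp j false + ((1 / 2 : ℝ) : ℂ) * N.d j)) := by
    have h1 : Continuous (fun s : ℝ => N.sp j false + ((1 / 2 : ℝ) : ℂ) * N.d j
      + (s : ℂ) * (Complex.I * N.d j)) := by fun_prop
    have h2 := h1.tendsto 0
    simpa using h2
  have hv : ∀ s : ℝ, hh (N.d j) (N.sp j false + ((1 / 2 : ℝ) : ℂ) * N.d j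
      + (s : ℂ) * (Complex.I * N.d j) - N.sp j false) = s * ‖N.d j‖ := by
    intro s
    have h1 : N.sp j false + ((1 / 2 : ℝ) : ℂ) * N.d j
      + (s : ℂ) * (Complex.I * N.d j) - N.sp j false = ((1 / 2 : ℝ) : ℂ) * N.d j
      + (s : ℂ) * (Complex.I * N.d j) := by ring
    rw [h1, hh_add, hh_mul_self, hh_real, hh_I_mul, zero_add]
  have h2 := hc.eventually h
  constructor
  · obtain ⟨s, hs, hs0⟩ := ((h2.filter_mono (nhdsWithin_le_nhds (s := Ioi 0))).and
      self_mem_nhdsWithin).exists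
    have h3 := hs.1 (by rw [hv]; exact mul_pos hs0 hd)
    have h4 := hN.labS (N.sp j false + ((1 / 2 : ℝ) : ℂ) * N.d j
      + (s : ℂ) * (Complex.I * N.d j))
    rw [h3] at h4
    simpa [Nw.ll] using h4
  · obtain ⟨s, hs, hs0⟩ := ((h2.filter_mono (nhdsWithin_le_nhds (s := Iio 0))).and
      self_mem_nhdsWithin).exists
    have h3 := hs.2 (by rw [hv]; exact mul_neg_of_neg_of_pos hs0 hd)
    have h4 := hN.labS (N.sp j false + ((1 / 2 : ℝ) : ℂ) * N.d j
      + (s : ℂ) * (Complex.I * N.d j))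
    rw [h3] at h4
    simpa [Nw.rl] using h4

/-- the matrix of a tube has smooth entries -/
theorem smooth_WW (p q : ℤ) (e : ℝ) (l : ℤ) (i i' : Fin 2) (θ : ℂ → ℝ) (hθ : ContDiff ℝ ∞ θ) :
    ContDiff ℝ ∞ (fun z => WW p q e (θ z) l i i') := by
  have hc : ContDiff ℝ ∞ (fun z => Real.cos (θ z)) := Real.contDiff_cos.comp hθ
  have hs : ContDiff ℝ ∞ (fun z => Real.sin (θ z)) := Real.contDiff_sin.comp hθ
  have h1 : ContDiff ℝ ∞ (fun z => e * (Real.cos (θ z) * Real.sin (θ z))) :=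
    contDiff_const.mul (hc.mul hs)
  show ContDiff ℝ ∞ (fun z => wm p q e (θ z) l (bo i) (bo i'))
  unfold wm
  split_ifs
  · exact hs.pow 2
  · exact hc.pow 2
  · exact h1
  · exact hc.pow 2
  · exact hs.pow 2
  · exact h1.neg
  · exact contDiff_const

theorem smooth_ang (N : Nw κ J n) (ε : ℝ) (j : J) : ContDiff ℝ ∞ (ang N ε j) := by
  unfold ang
  exact contDiff_const.mul (contDiff_prof.comp ((contDiff_hh _).div_const _))

/-- the off diagonal entries of the wall matrix at `π/4` -/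
theorem wm_off {p q : ℤ} {e : ℝ} (he : e * e = 1) {l : ℤ} (hl : l = q ∨ l = p)
    (x y : Bool) (hxy : x ≠ y) : wm p q e (Real.pi / 4) l x y ≠ 0 := by
  have he0 : e ≠ 0 := by
    rintro rfl
    norm_num at he
  have h2 : Real.cos (Real.pi / 4) * Real.sin (Real.pi / 4) ≠ 0 := by
    rw [Real.cos_pi_div_four, Real.sin_pi_div_four]
    positivity
  unfold wm
  by_cases hq : l = q
  · rw [if_pos hq, if_neg hxy]
    exact mul_ne_zero he0 h2
  · have hp : l = p := by
      rcases hl with h | h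
      · exact absurd h hq
      · exact h
    rw [if_neg hq, if_pos hp, if_neg hxy]
    exact neg_ne_zero.2 (mul_ne_zero he0 h2)

theorem lab_off {N : Nw κ J n} {Γ : ℤ → ℂ → Prop} {S : Finset ℤ} {r₁ r₂ : ℝ}
    {M : κ → ℂ → ℤ → Matrix (Fin n) (Fin n) ℝ} {R₀ : κ → ℝ} (hN : NwOK N S r₁ r₂)
    (hM : ∀ c, VxM N Γ S c (M c) (R₀ c)) (j : J) {l : ℤ} (hl : l = N.lq j ∨ l = N.lp j) :
    Γ l (N.sp j true - N.sp j false) ∧ Γ l (N.sp j false - N.sp j true) := by
  have hd : 0 < ‖N.d j‖ := norm_pos_iff.2 (hN.d_ne j)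
  set c := N.cls j with hc
  set t : ℝ := max (R₀ c) 1 / ‖N.d j‖ with ht
  have hm : t * ‖N.d j‖ = max (R₀ c) 1 := by
    rw [ht]
    field_simp
  have hm0 : 0 < max (R₀ c) 1 := lt_of_lt_of_le one_pos (le_max_right _ _)
  have ht0 : 0 < t := div_pos hm0 hd
  have h1 : R₀ c ≤ ‖(t : ℂ) * N.d j‖ := by
    rw [norm_mul, Complex.norm_real, Real.norm_eq_abs, abs_of_pos ht0, hm]
    exact le_max_left _ _
  have h2 : 0 < tt (N.d j) ((t : ℂ) * N.d j) := by
    rw [tt_mul_self, hm]
    exact hm0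
  have h3 : |hh (N.d j) ((t : ℂ) * N.d j)| ≤ 1 := by
    rw [hh_mul_self]
    norm_num
  have hR := (hM c).ray j hc.symm ((t : ℂ) * N.d j) h1 h2 h3 l
  rw [hh_mul_self, prof_zero] at hR
  have hpi : Real.pi / 2 * (1 / 2) = Real.pi / 4 := by ring
  rw [hpi] at hR
  constructor
  · have h4 := hR false (N.rb j)
    rw [if_neg (by simp), if_neg (hN.rab j).symm, if_pos rfl] at h4
    have h5 : M c ((t : ℂ) * N.d j) l (N.ra j) (N.rb j) ≠ 0 := by
      rw [h4]
      exact wm_off (hN.sgn j) hl _ _ (by simp)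
    have h6 := (hM c).loc _ _ _ _ h5
    simpa [Nw.sp] using h6
  · have h4 := hR true (N.ra j)
    rw [if_pos rfl, if_pos rfl] at h4
    have h5 : M c ((t : ℂ) * N.d j) l (N.rb j) (N.ra j) ≠ 0 := by
      rw [h4]
      exact wm_off (hN.sgn j) hl _ _ (by simp)
    have h6 := (hM c).loc _ _ _ _ h5
    simpa [Nw.sp] using h6

theorem hCHT : StCHT := by
  intro κ J _ _ n N Γ S r₁ r₂ M R₀ r ε hN hM hΓ j
  obtain ⟨hp, hq⟩ := lab_mem hN j
  have hpq := hN.lpq j
  have hMW : ∀ l z, (tube N r ε j).M l z = WW (N.lp j) (N.lq j) (N.e j) (ang N ε j z) l :=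
    fun _ _ => rfl
  constructor
  · show IsOpen (tubO N r ε j)
    unfold tubO
    have h1 : IsOpen {z : ℂ | |hh (N.d j) z| < 2 * ε} :=
      isOpen_lt (continuous_abs.comp (continuous_hh _)) continuous_const
    have h2 : IsOpen {z : ℂ | r / 2 < tt (N.d j) z} :=
      isOpen_lt continuous_const (continuous_tt _)
    have h3 : IsOpen {z : ℂ | tt (N.d j) z < ‖N.d j‖ - r / 2} :=
      isOpen_lt (continuous_tt _) continuous_const
    exact h1.inter (h2.inter h3)
  · intro i i' h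
    by_contra hne
    have h1 : N.sp j (bo i) = N.sp j (bo i') := h
    have h2 : N.sp j false = N.sp j true := by
      fin_cases i <;> fin_cases i'
      · exact absurd rfl hne
      · exact h1
      · exact h1.symm
      · exact absurd rfl hne
    simp only [Nw.sp] at h2
    have h3 := (hN.inj _ _ _ _ h2).2
    simp only [if_true, Bool.false_eq_true, if_false] at h3
    exact hN.rab j h3
  · intro l a b z _
    exact (smooth_WW _ _ _ _ _ _ _ (smooth_ang N ε j)).contDiffAt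
  · intro l z _
    rw [hMW]
    exact WW_symm _ _ hpq _ _ _
  · intro l z _
    rw [hMW]
    exact WW_idem _ _ hpq _ _ (hN.sgn j) _
  · intro l hl z _
    rw [hMW]
    refine WW_zero ?_ ?_ _ _
    · rintro rfl
      exact hl hp
    · rintro rfl
      exact hl hq
  · intro z _
    exact WW_sum hpq _ _ S hp hq
  · intro l z _ a b hab
    have h1 : l = N.lq j ∨ l = N.lp j := by
      by_contra hne
      rw [not_or] at hne
      apply hab
      rw [hMW, WW_zero hne.2 hne.1]
      rfl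
    obtain ⟨h2, h3⟩ := lab_off hN hM j h1
    show Γ l (N.sp j (bo b) - N.sp j (bo a))
    fin_cases a <;> fin_cases b
    · show Γ l (N.sp j false - N.sp j false)
      rw [sub_self]
      exact hΓ l
    · exact h2
    · exact h3
    · show Γ l (N.sp j true - N.sp j true)
      rw [sub_self]
      exact hΓ l

end Pool.Agent.Helper36.UN38
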